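import Mathlib

/-!
Stabilizer codes over `A_q = F_q^2`, their distance, and monomial transformations.
-/

set_option autoImplicit false

namespace Pool.Agent.Lib.MP_711a76_lc

/-- The space `A_q^n`; each coordinate is a pair `(a, b) = (u i 0, u i 1)` in `F_q^2`. -/
abbrev Word (q n : ℕ) : Type := Fin n → Fin 2 → ZMod q

/-- The symplectic form `∑ (a b' - a' b)`. -/
def symp {q n : ℕ} (u v : Word q n) : ZMod q := ∑ i, (u i 0 * v i 1 - v i 0 * u i 1)

/-- The symplectic dual of a code. -/
def sympDual {q n : ℕ} (C : Submodule (ZMod q) (Word q n)) : Set (Word q n) :=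
  {u | ∀ c ∈ C, symp u c = 0}

/-- A stabilizer code is a subspace contained in its symplectic dual. -/
def IsStabilizerCode {q n : ℕ} (C : Submodule (ZMod q) (Word q n)) : Prop :=
  (C : Set (Word q n)) ⊆ sympDual C

open Classical in
/-- The distance: least weight in `C^⊥ \ C`, or of a nonzero word of `C` when `C = C^⊥`. -/
noncomputable def distance {q n : ℕ} (C : Submodule (ZMod q) (Word q n)) : ℕ :=
  if (C : Set (Word q n)) = sympDual C then sInf {w | ∃ u ∈ C, u ≠ 0 ∧ hammingNorm u = w}
  else sInf {w | ∃ u ∈ sympDual C, u ∉ C ∧ hammingNorm u = w}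

/-- The monomial transformation `u ↦ (g_i u_{π⁻¹ i})_i`. -/
def monomial {q n : ℕ} (π : Equiv.Perm (Fin n)) (g : Fin n → GL (Fin 2) (ZMod q))
    (u : Word q n) : Word q n :=
  fun i => (g i : Matrix (Fin 2) (Fin 2) (ZMod q)).mulVec (u (π⁻¹ i))

/-- A map `f` on words restricts to a weight-preserving isometry from `C` onto `D`: it is linear,
maps `C` bijectively onto `D`, and preserves the weight of every word of `C`. -/
def IsWeightIsometry {q n : ℕ} (C D : Submodule (ZMod q) (Word q n))
    (f : Word q n →ₗ[ZMod q] Word q n) : Prop :=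
  Set.BijOn f C D ∧ ∀ c ∈ C, hammingNorm (f c) = hammingNorm c

end Pool.Agent.Lib.MP_711a76_lc
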