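import Mathlib
import Pool.Agent.Lib.MP_711a76_lc.Defs

set_option autoImplicit false

namespace Pool.Agent.Lib.MP_711a76_lc

/-- encoder of the Steane code -/
def encC : (Fin 6 → ZMod 2) →ₗ[ZMod 2] Word 2 7 where
  toFun x := ![![x 0, x 1], ![x 2, x 3], ![x 0 + x 2, x 1 + x 3], ![x 4, x 5],
    ![x 0 + x 4, x 1 + x 5], ![x 2 + x 4, x 3 + x 5], ![x 0 + x 2 + x 4, x 1 + x 3 + x 5]]
  map_add' x y := by
    ext i j; fin_cases i <;> fin_cases j <;> simp <;> ring
  map_smul' c x := by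
    ext i j; fin_cases i <;> fin_cases j <;> simp <;> ring

/-- encoder of the code obtained by switching a regulus -/
def encD : (Fin 6 → ZMod 2) →ₗ[ZMod 2] Word 2 7 where
  toFun x := ![![x 0, x 2], ![x 1, x 3], ![x 0 + x 1, x 2 + x 3], ![x 4, x 5],
    ![x 0 + x 4, x 1 + x 5], ![x 2 + x 4, x 3 + x 5], ![x 0 + x 2 + x 4, x 1 + x 3 + x 5]]
  map_add' x y := by
    ext i j; fin_cases i <;> fin_cases j <;> simp <;> ring
  map_smul' c x := by
    ext i j; fin_cases i <;> fin_cases j <;> simp <;> ring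

lemma vec6 (x : Fin 6 → ZMod 2) : x = ![x 0, x 1, x 2, x 3, x 4, x 5] := by
  ext i; fin_cases i <;> rfl

lemma word7 (u : Word 2 7) : u = ![![u 0 0, u 0 1], ![u 1 0, u 1 1], ![u 2 0, u 2 1],
    ![u 3 0, u 3 1], ![u 4 0, u 4 1], ![u 5 0, u 5 1], ![u 6 0, u 6 1]] := by
  ext i j; fin_cases i <;> fin_cases j <;> rfl

lemma wt_eq' : ∀ a b c d e f : ZMod 2,
    hammingNorm (encD ![a, b, c, d, e, f]) = hammingNorm (encC ![a, b, c, d, e, f]) ∧
    (![a, b, c, d, e, f] = 0 ∨ 4 ≤ hammingNorm (encC ![a, b, c, d, e, f])) := by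
  decide +kernel

lemma wt_eq (x : Fin 6 → ZMod 2) : hammingNorm (encD x) = hammingNorm (encC x) := by
  rw [vec6 x]; exact (wt_eq' _ _ _ _ _ _).1

lemma wt_ge (x : Fin 6 → ZMod 2) : x = 0 ∨ 4 ≤ hammingNorm (encC x) := by
  rw [vec6 x]; exact (wt_eq' _ _ _ _ _ _).2

lemma injC : Function.Injective encC := by
  rw [injective_iff_map_eq_zero]
  intro x hx
  rcases wt_ge x with h | h
  · exact h
  · rw [hx, hammingNorm_zero] at h; omega

lemma injD : Function.Injective encD := by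
  rw [injective_iff_map_eq_zero]
  intro x hx
  rcases wt_ge x with h | h
  · exact h
  · rw [← wt_eq, hx, hammingNorm_zero] at h; omega

lemma two_eq : (2 : ZMod 2) = 0 := rfl

lemma orthC (x y : Fin 6 → ZMod 2) : symp (encC x) (encC y) = 0 := by
  simp [symp, encC, Fin.sum_univ_succ]
  ring_nf
  simp [two_eq, show (4 : ZMod 2) = 0 from rfl]

lemma orthD (x y : Fin 6 → ZMod 2) : symp (encD x) (encD y) = 0 := by
  rw [vec6 x, vec6 y]
  generalize x 0 = a; generalize x 1 = b; generalize x 2 = c; generalize x 3 = d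
  generalize x 4 = e; generalize x 5 = f
  generalize y 0 = a'; generalize y 1 = b'; generalize y 2 = c'; generalize y 3 = d'
  generalize y 4 = e'; generalize y 5 = f'
  revert a b c d e f a' b' c' d' e' f'
  decide +kernel

lemma support_two (u : Word 2 7) (h : hammingNorm u ≤ 2) :
    ∃ i j : Fin 7, ∃ a b c d : ZMod 2, u = Pi.single i ![a, b] + Pi.single j ![c, d] := by
  have h2 : ∀ v : Fin 2 → ZMod 2, v = ![v 0, v 1] := by
    intro v; ext k; fin_cases k <;> rfl
  have h0 : (![0, 0] : Fin 2 → ZMod 2) = 0 := by ext k; fin_cases k <;> rfl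
  unfold hammingNorm at h
  set S := Finset.univ.filter (fun i => u i ≠ 0) with hS
  have hz : ∀ k, k ∉ S → u k = 0 := by intro k hk; simpa [hS] using hk
  rcases Nat.lt_or_ge S.card 2 with h1 | h1
  · obtain ⟨i, hi⟩ := Finset.card_le_one_iff_subset_singleton.1 (Nat.lt_succ_iff.1 h1)
    refine ⟨i, i, u i 0, u i 1, 0, 0, ?_⟩
    rw [h0, ← h2]
    funext k
    by_cases hk : k = i
    · subst hk; simp
    · have : u k = 0 := hz k (fun hh => hk (Finset.mem_singleton.1 (hi hh)))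
      simp [hk, this]
  · obtain ⟨i, j, hij, hi⟩ := Finset.card_eq_two.1 (le_antisymm h h1)
    refine ⟨i, j, u i 0, u i 1, u j 0, u j 1, ?_⟩
    rw [← h2, ← h2]
    funext k
    by_cases hk : k = i
    · subst hk; simp [hij]
    · by_cases hk' : k = j
      · subst hk'; simp [hk]
      · have : u k = 0 := hz k (by rw [hi]; simp [hk, hk'])
        simp [hk, hk', this]

lemma lowC : ∀ i j : Fin 7, ∀ a b c d : ZMod 2,
    (∀ k : Fin 6, symp (Pi.single i ![a, b] + Pi.single j ![c, d] : Word 2 7)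
      (encC (Pi.single k 1)) = 0) →
    (Pi.single i ![a, b] + Pi.single j ![c, d] : Word 2 7) = 0 := by
  decide +kernel

lemma lowD : ∀ i j : Fin 7, ∀ a b c d : ZMod 2,
    (∀ k : Fin 6, symp (Pi.single i ![a, b] + Pi.single j ![c, d] : Word 2 7)
      (encD (Pi.single k 1)) = 0) →
    (Pi.single i ![a, b] + Pi.single j ![c, d] : Word 2 7) = 0 := by
  decide +kernel

/-- the word `XXX` on the first three coordinates -/
def w3 : Word 2 7 := ![![1, 0], ![1, 0], ![1, 0], ![0, 0], ![0, 0], ![0, 0], ![0, 0]]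

lemma w3_wt : hammingNorm w3 = 3 := by decide +kernel

lemma w3C (x : Fin 6 → ZMod 2) : symp w3 (encC x) = 0 := by
  rw [vec6 x]
  generalize x 0 = a; generalize x 1 = b; generalize x 2 = c; generalize x 3 = d
  generalize x 4 = e; generalize x 5 = f
  revert a b c d e f
  decide +kernel

lemma w3D (x : Fin 6 → ZMod 2) : symp w3 (encD x) = 0 := by
  rw [vec6 x]
  generalize x 0 = a; generalize x 1 = b; generalize x 2 = c; generalize x 3 = d
  generalize x 4 = e; generalize x 5 = f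
  revert a b c d e f
  decide +kernel

lemma distance_eq (enc : (Fin 6 → ZMod 2) →ₗ[ZMod 2] Word 2 7)
    (h4 : ∀ x, x = 0 ∨ 4 ≤ hammingNorm (enc x))
    (hw : ∀ x, symp w3 (enc x) = 0)
    (hl : ∀ i j : Fin 7, ∀ a b c d : ZMod 2,
      (∀ k : Fin 6, symp (Pi.single i ![a, b] + Pi.single j ![c, d] : Word 2 7)
        (enc (Pi.single k 1)) = 0) →
      (Pi.single i ![a, b] + Pi.single j ![c, d] : Word 2 7) = 0) :
    distance (LinearMap.range enc) = 3 := by
  have hw1 : w3 ∈ sympDual (LinearMap.range enc) := by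
    rintro _ ⟨x, rfl⟩; exact hw x
  have hw2 : w3 ∉ LinearMap.range enc := by
    rintro ⟨x, hx⟩
    rcases h4 x with h | h
    · have := w3_wt
      rw [← hx, h, map_zero, hammingNorm_zero] at this
      omega
    · rw [hx, w3_wt] at h; omega
  unfold distance
  rw [if_neg (fun h => hw2 (by rw [← SetLike.mem_coe, h]; exact hw1))]
  apply le_antisymm
  · exact Nat.sInf_le ⟨w3, hw1, hw2, w3_wt⟩
  · refine le_csInf ⟨3, w3, hw1, hw2, w3_wt⟩ ?_
    rintro w ⟨u, hu1, hu2, rfl⟩
    by_contra hlt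
    obtain ⟨i, j, a, b, c, d, rfl⟩ := support_two u (by omega)
    have := hl i j a b c d (fun k => hu1 _ ⟨_, rfl⟩)
    exact hu2 (this ▸ Submodule.zero_mem _)

lemma factD' : ∀ a b c d e f a' b' c' d' e' f' : ZMod 2,
    hammingNorm (encD ![a, b, c, d, e, f]) = 4 →
    (∀ i, encD ![a, b, c, d, e, f] i = 0 ↔ encD ![a', b', c', d', e', f'] i = 0) →
    ![a, b, c, d, e, f] = ![a', b', c', d', e', f'] ∨
      ∀ i : Fin 7, encD ![a, b, c, d, e, f] i = 0 ↔ i.val < 3 := by
  decide +kernel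

lemma factD (x y : Fin 6 → ZMod 2) (h : hammingNorm (encD x) = 4)
    (h' : ∀ i, encD x i = 0 ↔ encD y i = 0) : x = y ∨ ∀ i : Fin 7, encD x i = 0 ↔ i.val < 3 := by
  rw [vec6 x, vec6 y] at *
  exact factD' _ _ _ _ _ _ _ _ _ _ _ _ h h'

lemma monomial_eq_zero_iff {q n : ℕ} (π : Equiv.Perm (Fin n)) (g : Fin n → GL (Fin 2) (ZMod q))
    (u : Word q n) (i : Fin n) : monomial π g u i = 0 ↔ u (π⁻¹ i) = 0 := by
  unfold monomial
  constructor
  · intro h
    have := congrArg (((g i)⁻¹ : GL (Fin 2) (ZMod q)) : Matrix (Fin 2) (Fin 2) (ZMod q)).mulVec h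
    rwa [Matrix.mulVec_mulVec, Units.inv_mul, Matrix.one_mulVec, Matrix.mulVec_zero] at this
  · intro h; rw [h, Matrix.mulVec_zero]

lemma monomial_inj {q n : ℕ} (π : Equiv.Perm (Fin n)) (g : Fin n → GL (Fin 2) (ZMod q))
    {u v : Word q n} (h : monomial π g u = monomial π g v) : u = v := by
  funext k
  have h1 : monomial π g (u - v) (π k) = 0 := by
    have := congrFun h (π k)
    unfold monomial at *
    rw [Pi.sub_apply, Matrix.mulVec_sub, this, sub_self]
  rw [monomial_eq_zero_iff] at h1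
  simpa [sub_eq_zero] using h1

lemma monomial_wt {q n : ℕ} (π : Equiv.Perm (Fin n)) (g : Fin n → GL (Fin 2) (ZMod q))
    (u : Word q n) : hammingNorm (monomial π g u) = hammingNorm u := by
  unfold hammingNorm
  refine Finset.card_equiv π⁻¹ ?_
  intro i
  simp [monomial_eq_zero_iff]

lemma pair_forces (π : Equiv.Perm (Fin 7)) (g : Fin 7 → GL (Fin 2) (ZMod 2))
    (h : ∀ c ∈ LinearMap.range encC, monomial π g c ∈ LinearMap.range encD)
    (x y : Fin 6 → ZMod 2) (hxy : encC x ≠ encC y) (h4 : hammingNorm (encC x) = 4)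
    (hz : ∀ i, encC x i = 0 ↔ encC y i = 0) (k : Fin 7) : encC x k = 0 ↔ (π k).val < 3 := by
  obtain ⟨x', hx'⟩ := h _ ⟨x, rfl⟩
  obtain ⟨y', hy'⟩ := h _ ⟨y, rfl⟩
  rcases factD x' y' (by rw [hx', monomial_wt, h4])
    (fun i => by rw [hx', hy', monomial_eq_zero_iff, monomial_eq_zero_iff, hz]) with e | e
  · exact absurd (monomial_inj π g (by rw [← hx', ← hy', e])) hxy
  · rw [← e, hx', monomial_eq_zero_iff]; simp

theorem not_equiv (π : Equiv.Perm (Fin 7)) (g : Fin 7 → GL (Fin 2) (ZMod 2)) :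
    ¬ ∀ c ∈ LinearMap.range encC, monomial π g c ∈ LinearMap.range encD := by
  intro h
  have h1 := pair_forces π g h ![0, 0, 0, 0, 1, 0] ![0, 0, 0, 0, 0, 1] (by decide +kernel)
    (by decide +kernel) (by decide +kernel) 0
  have h2 := pair_forces π g h ![1, 0, 0, 0, 0, 0] ![0, 1, 0, 0, 0, 0] (by decide +kernel)
    (by decide +kernel) (by decide +kernel) 0
  have h3 : encC ![0, 0, 0, 0, 1, 0] 0 = 0 := by decide +kernel
  have h4 : ¬ encC ![1, 0, 0, 0, 0, 0] 0 = 0 := by decide +kernel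
  exact h4 (h2.2 (h1.1 h3))

end Pool.Agent.Lib.MP_711a76_lc
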