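import Mathlib
import Pool.Agent.Lib.MP_711a76_lc.Defs

set_option autoImplicit false

namespace Pool.Agent.Lib.MP_711a76_lc

open Finset

variable {q : ℕ} {ι : Type*} [Fintype ι] [DecidableEq ι]

/-- The symplectic form on one coordinate. -/
def om (v y : Fin 2 → ZMod q) : ZMod q := v 0 * y 1 - y 0 * v 1

/-- A word supported on at most three coordinates. -/
def tri (i k m : ι) (v a b : Fin 2 → ZMod q) : ι → Fin 2 → ZMod q :=
  Pi.single i v + Pi.single k a + Pi.single m b

theorem om_single (i : ι) (v : Fin 2 → ZMod q) (y : ι → Fin 2 → ZMod q) :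
    ∑ t, om ((Pi.single i v : ι → Fin 2 → ZMod q) t) (y t) = om v (y i) := by
  rw [sum_eq_single i (fun t _ h => by simp [h, om]) (by simp)]
  simp

theorem om_tri (i k m : ι) (v a b : Fin 2 → ZMod q) (y : ι → Fin 2 → ZMod q) :
    ∑ t, om (tri i k m v a b t) (y t) = om v (y i) + om a (y k) + om b (y m) := by
  rw [← om_single i v y, ← om_single k a y, ← om_single m b y, ← sum_add_distrib,
    ← sum_add_distrib]
  exact sum_congr rfl fun t _ => by simp only [tri, om, Pi.add_apply]; ring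

omit [Fintype ι] in
theorem tri_ne {i k m t : ι} (v a b : Fin 2 → ZMod q) (h1 : t ≠ i) (h2 : t ≠ k) (h3 : t ≠ m) :
    tri i k m v a b t = 0 := by simp [tri, h1, h2, h3]

theorem tri_wt (i k m : ι) (v a b : Fin 2 → ZMod q) : hammingNorm (tri i k m v a b) ≤ 3 := by
  refine (card_le_card (t := {i, k, m}) fun t ht => ?_).trans card_le_three
  by_contra h
  simp only [mem_insert, mem_singleton, not_or] at h
  exact (mem_filter.1 ht).2 (tri_ne v a b h.1 h.2.1 h.2.2)

variable [Fact q.Prime] {X : Type*} [AddCommGroup X] [Module (ZMod q) X]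

/-- The functional `p` vanishes on the kernel of `l`. -/
def On (l : X →ₗ[ZMod q] Fin 2 → ZMod q) (p : X →ₗ[ZMod q] ZMod q) : Prop :=
  ∀ x, l x = 0 → p x = 0

/-- Two independent functionals. -/
def Idp (p s : X →ₗ[ZMod q] ZMod q) : Prop :=
  ∀ a b : ZMod q, (∀ x, a * p x + b * s x = 0) → a = 0 ∧ b = 0

/-- The functional attached to a letter. -/
def fn (l : X →ₗ[ZMod q] Fin 2 → ZMod q) (v : Fin 2 → ZMod q) : X →ₗ[ZMod q] ZMod q where
  toFun x := om v (l x)
  map_add' x y := by simp only [om, map_add, Pi.add_apply]; ring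
  map_smul' c x := by simp only [om, map_smul, Pi.smul_apply, smul_eq_mul, RingHom.id_apply]; ring

/-- Words of the dual code of weight at most three are orthogonal to the dual code. -/
def Iso (l : ι → X →ₗ[ZMod q] Fin 2 → ZMod q) : Prop :=
  ∀ u u' : ι → Fin 2 → ZMod q, (∀ x, ∑ t, om (u t) (l t x) = 0) →
    (∀ x, ∑ t, om (u' t) (l t x) = 0) → hammingNorm u ≤ 3 → ∑ t, om (u t) (u' t) = 0

theorem on_fn (l : X →ₗ[ZMod q] Fin 2 → ZMod q) (v : Fin 2 → ZMod q) : On l (fn l v) :=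
  fun x h => by simp [fn, om, h]

theorem On.fac {l : X →ₗ[ZMod q] Fin 2 → ZMod q} {p : X →ₗ[ZMod q] ZMod q} (h : On l p) :
    ∃ v, ∀ x, p x = om v (l x) := by
  have h1 := mem_span_of_iInf_ker_le_ker (L := fun e : Fin 2 => (LinearMap.proj e).comp l) (K := p)
    fun x hx => h x (funext fun e => by simpa using (Submodule.mem_iInf _).1 hx e)
  obtain ⟨c, hc⟩ := (Submodule.mem_span_range_iff_exists_fun _).1 h1
  refine ⟨![c 1, -c 0], fun x => ?_⟩
  rw [← hc]
  simp [om, Fin.sum_univ_two]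
  ring

theorem On.two {l : X →ₗ[ZMod q] Fin 2 → ZMod q} {p s : X →ₗ[ZMod q] ZMod q} (hp : On l p)
    (hs : On l s) (h : Idp p s) (x : X) : l x = 0 ↔ p x = 0 ∧ s x = 0 := by
  refine ⟨fun e => ⟨hp x e, hs x e⟩, fun ⟨e1, e2⟩ => ?_⟩
  obtain ⟨v, hv⟩ := hp.fac
  obtain ⟨w, hw⟩ := hs.fac
  have a0 : ∀ y, w 0 * p y + -v 0 * s y = l y 0 * om v w := fun y => by
    rw [hv, hw]; simp only [om]; ring
  have a1 : ∀ y, w 1 * p y + -v 1 * s y = l y 1 * om v w := fun y => by
    rw [hv, hw]; simp only [om]; ring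
  have hD : om v w ≠ 0 := fun hD => by
    have b0 := neg_eq_zero.1 (h _ _ fun y => by rw [a0, hD, mul_zero]).2
    have b1 := neg_eq_zero.1 (h _ _ fun y => by rw [a1, hD, mul_zero]).2
    exact one_ne_zero (h 1 0 fun y => by simp [hv, om, b0, b1]).1
  have b0 := a0 x
  have b1 := a1 x
  rw [e1, e2, mul_zero, mul_zero, add_zero, eq_comm, mul_eq_zero] at b0 b1
  funext e
  fin_cases e
  exacts [b0.resolve_right hD, b1.resolve_right hD]

theorem On.rk {l : X →ₗ[ZMod q] Fin 2 → ZMod q} {p : X →ₗ[ZMod q] ZMod q} (hp : On l p)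
    (h0 : ∃ x, p x ≠ 0) : (∃ s, On l s ∧ Idp p s) ∨ ∀ x, l x = 0 ↔ p x = 0 := by
  refine or_iff_not_imp_right.2 fun h => ?_
  obtain ⟨x, hx⟩ := not_forall.1 h
  have h1 : l x ≠ 0 := fun e => hx (iff_of_true e (hp x e))
  have h2 : p x = 0 := by_contra fun e => hx (iff_of_false h1 e)
  obtain ⟨e, he⟩ := Function.ne_iff.1 h1
  refine ⟨(LinearMap.proj e).comp l, fun y hy => by simp [hy], fun a b hab => ?_⟩
  have hb : b = 0 := by simpa [h2, show l x e ≠ 0 from he] using hab x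
  obtain ⟨y, hy⟩ := h0
  exact ⟨by simpa [hb, hy] using hab y, hb⟩

theorem exists_one {p : X →ₗ[ZMod q] ZMod q} {x : X} (h : p x ≠ 0) : p ((p x)⁻¹ • x) = 1 := by
  rw [map_smul, smul_eq_mul, inv_mul_cancel₀ h]

omit [Fintype ι] [DecidableEq ι] in
theorem cover [Fintype X] {l m : ι → X →ₗ[ZMod q] Fin 2 → ZMod q} {S S' : Finset ι}
    (h : ∀ x, #{i ∈ S | l i x = 0} = #{j ∈ S' | m j x = 0}) (p : X →ₗ[ZMod q] ZMod q)
    (hj : ∃ j ∈ S', On (m j) p) : ∃ i ∈ S, On (l i) p := by
  have dc : ∀ (l : ι → X →ₗ[ZMod q] Fin 2 → ZMod q) (S : Finset ι) (c : ZMod q),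
      ∑ i ∈ S, #{x | l i x = 0 ∧ p x = c} = ∑ x, if p x = c then #{i ∈ S | l i x = 0} else 0 :=
    fun l S c => by
      simp only [card_filter]
      rw [sum_comm]
      exact sum_congr rfl fun x _ => by by_cases e : p x = c <;> simp [e]
  have off : ∀ l : X →ₗ[ZMod q] Fin 2 → ZMod q, ¬On l p →
      #{x | l x = 0 ∧ p x = 0} = #{x | l x = 0 ∧ p x = 1} := fun l hl => by
    obtain ⟨x, hx⟩ := not_forall.1 hl
    rw [Classical.not_imp] at hx
    refine card_equiv (Equiv.addRight ((p x)⁻¹ • x)) fun y => ?_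
    simp [hx.1, inv_mul_cancel₀ hx.2]
  have on : ∀ l : X →ₗ[ZMod q] Fin 2 → ZMod q, On l p →
      #{x | l x = 0 ∧ p x = 1} < #{x | l x = 0 ∧ p x = 0} := fun l hl => by
    rw [filter_false_of_mem fun x _ e => zero_ne_one ((hl x e.1).symm.trans e.2)]
    exact card_pos.2 ⟨0, by simp⟩
  by_contra hn
  have h1 : ∑ j ∈ S', #{x | m j x = 0 ∧ p x = 0} = ∑ j ∈ S', #{x | m j x = 0 ∧ p x = 1} := by
    rw [dc, dc]
    simp only [← h]
    rw [← dc, ← dc]
    exact sum_congr rfl fun i hi => off _ fun e => hn ⟨i, hi, e⟩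
  obtain ⟨j, hj, hp⟩ := hj
  refine (sum_lt_sum (fun j _ => ?_) ⟨j, hj, on _ hp⟩).ne' h1
  by_cases e : On (m j) p
  exacts [(on _ e).le, (off _ e).ge]

section Key

variable (hq : 5 ≤ q) {l m : ι → X →ₗ[ZMod q] Fin 2 → ZMod q} {S S' : Finset ι}
  (c1 : ∀ p, (∃ j ∈ S', On (m j) p) → ∃ i ∈ S, On (l i) p)
  (c2 : ∀ p, (∃ i ∈ S, On (l i) p) → ∃ j ∈ S', On (m j) p)
  (hne : ∀ i ∈ S, ∀ j ∈ S', ¬∀ x, l i x = 0 ↔ m j x = 0)

omit [Fintype ι] in
include hq c1 hne in
theorem keyA {j : ι} (hj : j ∈ S') {p s : X →ₗ[ZMod q] ZMod q} (hp : On (m j) p) (hs : On (m j) s)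
    (h : Idp p s) (i k' m' : ι) : ∃ k n a b, k ∉ ({i, k', m'} : Finset ι) ∧
      n ∉ ({i, k', m'} : Finset ι) ∧ ∀ x, p x + om a (l k x) + om b (l n x) = 0 := by
  have o : ∀ t : ZMod q, On (m j) (p + t • s) := fun t x e => by simp [hp x e, hs x e]
  choose b hb hbo using fun t : ZMod q => c1 _ ⟨j, hj, o t⟩
  have inj : Function.Injective b := fun t t' e => by
    by_contra htt
    have hI : Idp (p + t • s) (p + t' • s) := fun a c hac => by
      obtain ⟨e1, e2⟩ := h (a + c) (a * t + c * t') fun x => by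
        have := hac x
        simp only [LinearMap.add_apply, LinearMap.smul_apply, smul_eq_mul] at this
        linear_combination this
      have e3 : a * (t - t') = 0 := by linear_combination e2 - t' * e1
      have e4 := (mul_eq_zero.1 e3).resolve_right (sub_ne_zero.2 htt)
      exact ⟨e4, by simpa [e4] using e1⟩
    exact hne _ (hb t) j hj fun x =>
      ((hbo t).two (e ▸ hbo t') hI x).trans ((o t).two (o t') hI x).symm
  have hc : 1 < #(univ.image b \ {i, k', m'}) := by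
    have a1 := le_card_sdiff ({i, k', m'} : Finset ι) (univ.image b)
    have a2 : #({i, k', m'} : Finset ι) ≤ 3 := card_le_three
    rw [card_image_of_injective _ inj, card_univ, ZMod.card] at a1
    omega
  obtain ⟨k, hk, n, hn, hkn⟩ := one_lt_card.1 hc
  obtain ⟨t, -, rfl⟩ := mem_image.1 (mem_sdiff.1 hk).1
  obtain ⟨t', -, rfl⟩ := mem_image.1 (mem_sdiff.1 hn).1
  have htt : t' - t ≠ 0 := sub_ne_zero.2 fun e => hkn (e ▸ rfl)
  obtain ⟨v, hv⟩ := (hbo t).fac
  obtain ⟨w, hw⟩ := (hbo t').fac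
  refine ⟨_, _, (-t' / (t' - t)) • v, (t / (t' - t)) • w, (mem_sdiff.1 hk).2, (mem_sdiff.1 hn).2,
    fun x => ?_⟩
  have a1 := hv x
  have a2 := hw x
  simp only [LinearMap.add_apply, LinearMap.smul_apply, smul_eq_mul, om, Pi.smul_apply] at a1 a2 ⊢
  field_simp
  linear_combination t' * a1 - t * a2

include hq c1 c2 hne in
theorem keyB (hl : Iso l) {i : ι} (hi : i ∈ S) {v0 : Fin 2 → ZMod q} (h0 : v0 ≠ 0) :
    ∃ x, om v0 (l i x) ≠ 0 := by
  by_contra hz
  push Not at hz
  obtain ⟨v, hv⟩ : ∃ v, om v0 v ≠ 0 := by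
    by_contra h
    push Not at h
    have a0 := h ![0, 1]
    have a1 := h ![1, 0]
    simp only [om, Matrix.cons_val_zero, Matrix.cons_val_one, mul_one, zero_mul, sub_zero,
      mul_zero, one_mul, zero_sub, neg_eq_zero] at a0 a1
    exact h0 (funext fun e => by fin_cases e; exacts [a0, a1])
  have z : ∀ y : Fin 2 → ZMod q, om 0 y = 0 := fun y => by simp [om]
  have fin : ∀ k n a b, i ≠ k → i ≠ n → ¬∀ x, om v (l i x) + om a (l k x) + om b (l n x) = 0 :=
    fun k n a b h1 h2 h => by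
      have := hl (tri i i i v0 0 0) (tri i k n v a b) (fun x => by rw [om_tri, hz, z]; simp)
        (fun x => by rw [om_tri, h]) (tri_wt _ _ _ _ _ _)
      rw [om_tri, z] at this
      exact hv (by simpa [tri, h1, h2] using this)
  by_cases hp : ∃ x, fn (l i) v x ≠ 0
  · obtain ⟨j, hj, ho⟩ := c2 _ ⟨i, hi, on_fn (l i) v⟩
    rcases ho.rk hp with ⟨s, hs, hI⟩ | e
    · obtain ⟨k, n, a, b, hk, hn, h⟩ := keyA hq c1 hne hj ho hs hI i i i
      exact fin k n a b (fun e => hk (by simp [e])) (fun e => hn (by simp [e])) h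
    · refine hne i hi j hj fun x => Iff.trans ⟨on_fn _ _ x, fun e' => ?_⟩ (e x).symm
      have a1 := hz x
      change om v (l i x) = 0 at e'
      have b0 : l i x 0 * om v0 v = 0 := by
        simp only [om] at a1 e' ⊢
        linear_combination v 0 * a1 - v0 0 * e'
      have b1 : l i x 1 * om v0 v = 0 := by
        simp only [om] at a1 e' ⊢
        linear_combination v 1 * a1 - v0 1 * e'
      funext e
      fin_cases e
      exacts [(mul_eq_zero.1 b0).resolve_right hv, (mul_eq_zero.1 b1).resolve_right hv]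
  · push Not at hp
    have := hl (tri i i i v0 0 0) (tri i i i v 0 0) (fun x => by rw [om_tri, hz, z]; simp)
      (fun x => by rw [om_tri, z, add_zero, add_zero]; exact hp x) (tri_wt _ _ _ _ _ _)
    rw [om_tri, z] at this
    exact hv (by simpa [tri] using this)

include hq c1 c2 hne in
theorem keyC (hl : Iso l) (hm : Iso m) {i : ι} (hi : i ∈ S) : False := by
  have C : ∀ v : Fin 2 → ZMod q, v ≠ 0 → ∀ k' m', ∃ k n a b, k ∉ ({i, k', m'} : Finset ι) ∧
      n ∉ ({i, k', m'} : Finset ι) ∧ ∀ x, om v (l i x) + om a (l k x) + om b (l n x) = 0 := by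
    intro v hv k' m'
    have hp : ∃ x, fn (l i) v x ≠ 0 := keyB hq c1 c2 hne hl hi hv
    obtain ⟨j, hj, ho⟩ := c2 _ ⟨i, hi, on_fn (l i) v⟩
    rcases ho.rk hp with ⟨s, hs, hI⟩ | e
    · exact keyA hq c1 hne hj ho hs hI i k' m'
    · obtain ⟨x, hx⟩ := hp
      have h1 := exists_one hx
      generalize (fn (l i) v x)⁻¹ • x = y at h1
      obtain ⟨z, hz⟩ := keyB hq c2 c1 (fun j hj i hi h => hne i hi j hj fun x => (h x).symm) hm hj
        (v0 := m j y) fun h => zero_ne_one (((e y).1 h).symm.trans h1)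
      have h2 := (e (z - fn (l i) v z • y)).2 (by simp [h1])
      rw [map_sub, map_smul, sub_eq_zero] at h2
      exact absurd (by rw [h2]; simp only [om, Pi.smul_apply, smul_eq_mul]; ring) hz
  obtain ⟨k', n', a', b', h1, h2, h3⟩ := C ![0, 1] (fun e => by simpa using congrFun e 1) i i
  obtain ⟨k, n, a, b, h4, h5, h6⟩ := C ![1, 0] (fun e => by simpa using congrFun e 0) k' n'
  simp only [mem_insert, mem_singleton, not_or] at h1 h2 h4 h5
  have := hl (tri i k n ![1, 0] a b) (tri i k' n' ![0, 1] a' b') (fun x => by rw [om_tri, h6])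
    (fun x => by rw [om_tri, h3]) (tri_wt _ _ _ _ _ _)
  rw [om_tri, tri_ne _ _ _ h4.1 h4.2.1 h4.2.2, tri_ne _ _ _ h5.1 h5.2.1 h5.2.2] at this
  simp [tri, om, Ne.symm h1.1, Ne.symm h2.1] at this

end Key

theorem matching [Fintype X] (hq : 5 ≤ q) {l m : ι → X →ₗ[ZMod q] Fin 2 → ZMod q} (hl : Iso l)
    (hm : Iso m) (S : Finset ι) : ∀ S' : Finset ι,
      (∀ x, #{i ∈ S | l i x = 0} = #{j ∈ S' | m j x = 0}) →
      ∃ f : ι → ι, Set.BijOn f S S' ∧ ∀ i ∈ S, ∀ x, l i x = 0 ↔ m (f i) x = 0 := by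
  induction S using Finset.strongInduction with
  | H S ih =>
    intro S' h
    rcases S.eq_empty_or_nonempty with rfl | ⟨i0, hi0⟩
    · have : S' = ∅ := by simpa [eq_comm] using h 0
      exact ⟨id, by simp [this], by simp⟩
    obtain ⟨i, hi, j, hj, e⟩ : ∃ i ∈ S, ∃ j ∈ S', ∀ x, l i x = 0 ↔ m j x = 0 := by
      by_contra hn
      exact keyC hq (cover h) (cover fun x => (h x).symm)
        (fun i hi j hj e => hn ⟨i, hi, j, hj, e⟩) hl hm hi0
    obtain ⟨f, h1, h2⟩ := ih (S.erase i) (erase_ssubset hi) (S'.erase j) fun x => by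
      rw [filter_erase, filter_erase, card_erase_eq_ite, card_erase_eq_ite, h x]
      simp [hi, hj, e x]
    refine ⟨Function.update f i j, ?_, fun t ht x => ?_⟩
    · have h3 : Set.BijOn (Function.update f i j) (S.erase i) (S'.erase j) :=
        h1.congr fun t ht => (Function.update_of_ne (ne_of_mem_erase ht) _ _).symm
      have h4 := h3.insert (a := i) (by simp)
      rwa [Function.update_self, ← coe_insert, ← coe_insert, insert_erase hi, insert_erase hj] at h4
    · by_cases ht' : t = i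
      · rw [ht', Function.update_self, e]
      · rw [Function.update_of_ne ht', h2 t (mem_erase.2 ⟨ht', ht⟩)]

theorem exists_gl {l m : X →ₗ[ZMod q] Fin 2 → ZMod q} (h : ∀ x, l x = 0 ↔ m x = 0) :
    ∃ g : GL (Fin 2) (ZMod q), ∀ x, (g : Matrix (Fin 2) (Fin 2) (ZMod q)).mulVec (l x) = m x := by
  have hk : LinearMap.ker l = LinearMap.ker m := Submodule.ext h
  obtain ⟨G, hG⟩ := Submodule.exists_linearEquiv_restrict_eq
    (l.quotKerEquivRange.symm ≪≫ₗ Submodule.quotEquivOfEq _ _ hk ≪≫ₗ m.quotKerEquivRange)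
  refine ⟨⟨LinearMap.toMatrix' G, LinearMap.toMatrix' G.symm, ?_, ?_⟩, fun x => ?_⟩
  · rw [← LinearMap.toMatrix'_comp]; simp
  · rw [← LinearMap.toMatrix'_comp]; simp
  · have := hG ⟨l x, x, rfl⟩
    simp only [LinearMap.toMatrix'_mulVec, LinearEquiv.coe_coe]
    rw [← this, LinearEquiv.trans_apply, LinearEquiv.trans_apply,
      l.quotKerEquivRange_symm_apply_image x ⟨x, rfl⟩]
    rfl

/-- Words of the dual code of weight below the distance lie in the code. -/
theorem low_mem {n : ℕ} {C : Submodule (ZMod q) (Word q n)} {u : Word q n} (hu : u ∈ sympDual C)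
    (h : hammingNorm u < distance C) : u ∈ C := by
  by_contra hn
  unfold distance at h
  rw [if_neg fun e => hn (by rw [← SetLike.mem_coe, e]; exact hu)] at h
  exact (Nat.sInf_le (s := {w | ∃ u ∈ sympDual C, u ∉ C ∧ hammingNorm u = w})
    ⟨u, hu, hn, rfl⟩).not_gt h

theorem iso_of {n : ℕ} {C : Submodule (ZMod q) (Word q n)} (hd : 4 ≤ distance C)
    (L : X →ₗ[ZMod q] Word q n) (hL : ∀ c ∈ C, ∃ x, L x = c) :
    Iso fun i => (LinearMap.proj i).comp L := fun u u' h1 h2 h3 => by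
  have h4 : u ∈ C := low_mem (fun c hc => by obtain ⟨x, rfl⟩ := hL c hc; exact h1 x) (by omega)
  obtain ⟨x, rfl⟩ := hL u h4
  rw [← neg_eq_zero, ← sum_neg_distrib, ← h2 x]
  exact sum_congr rfl fun t _ => by simp [om]

/-- Extension for `q ≥ 5` and distance at least four. -/
theorem extends_of (hq : 5 ≤ q) {n : ℕ} {C D : Submodule (ZMod q) (Word q n)} (hC : 4 ≤ distance C)
    (hD : 4 ≤ distance D) {f : Word q n →ₗ[ZMod q] Word q n} (hf : IsWeightIsometry C D f) :
    ∃ (π : Equiv.Perm (Fin n)) (g : Fin n → GL (Fin 2) (ZMod q)),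
      ∀ c ∈ C, monomial π g c = f c := by
  classical
  obtain ⟨s, h1, h2⟩ := matching hq (iso_of hC C.subtype fun c hc => ⟨⟨c, hc⟩, rfl⟩)
    (iso_of hD (f.comp C.subtype) fun c hc => by
      obtain ⟨x, hx, rfl⟩ := hf.1.2.2 hc
      exact ⟨⟨x, hx⟩, rfl⟩) univ univ fun x => by
    have a1 := card_filter_add_card_filter_not (s := univ) fun i => x.1 i = 0
    have a2 := card_filter_add_card_filter_not (s := univ) fun i => f x.1 i = 0
    have a3 := hf.2 x.1 x.2
    unfold hammingNorm at a3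
    change #{i | x.1 i = 0} = #{i | f x.1 i = 0}
    simp only [ne_eq] at a3
    omega
  have hs : Function.Bijective s := Set.bijOn_univ.1 (by simpa using h1)
  choose g hg using fun i => exists_gl (h2 i (mem_univ i))
  refine ⟨Equiv.ofBijective s hs, fun j => g ((Equiv.ofBijective s hs).symm j), fun c hc => ?_⟩
  funext j
  obtain ⟨i, rfl⟩ := (Equiv.ofBijective s hs).surjective j
  simp only [monomial, Equiv.Perm.coe_inv, Equiv.symm_apply_apply]
  exact hg i ⟨c, hc⟩

end Pool.Agent.Lib.MP_711a76_lc
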