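import Pool.Agent.Lib.MP_711a76_lc.Codes
import Pool.Agent.Lib.MP_711a76_lc.XPos

set_option autoImplicit false

namespace Pool.Agent.Lib.MP_711a76_lc

open Finset

variable {q d : ℕ} {ι : Type} [Fintype ι] [DecidableEq ι]
  {X : Type} [AddCommGroup X] [Module (ZMod q) X]

/-- A code with a weight-preserving involution that does not match the coordinate kernels. -/
structure Seed (d : ℕ) (L : X →ₗ[ZMod q] ι → Fin 2 → ZMod q) (T : X →ₗ[ZMod q] X) : Prop where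
  inj : Function.Injective L
  inv : ∀ x, T (T x) = x
  iso : ∀ x y, ∑ t, om (L x t) (L y t) = 0
  wt : ∀ x, hammingNorm (L (T x)) = hammingNorm (L x)
  low : ∀ u : ι → Fin 2 → ZMod q, (∀ x, ∑ t, om (u t) (L x t) = 0) → hammingNorm u < d →
    ∃ x, L x = u
  nm : ∃ j, (∀ i, ∃ x, ¬(L x i = 0 ↔ L (T x) j = 0)) ∧ ∃ x, L (T x) j ≠ 0

omit [DecidableEq ι] in
theorem wt_comp {κ : Type} [Fintype κ] (e : κ ≃ ι) (u : ι → Fin 2 → ZMod q) :
    hammingNorm (u ∘ e) = hammingNorm u :=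
  card_equiv e fun i => by simp

omit [DecidableEq ι] in
theorem Seed.counter [Fact q.Prime] {L : X →ₗ[ZMod q] ι → Fin 2 → ZMod q} {T : X →ₗ[ZMod q] X}
    (h : Seed d L T)
    (ns : ∃ u : ι → Fin 2 → ZMod q, (∀ x, ∑ t, om (u t) (L x t) = 0) ∧ ∀ x, L x ≠ u) :
    ∃ (n : ℕ) (C : Submodule (ZMod q) (Word q n)) (f : Word q n →ₗ[ZMod q] Word q n),
      IsStabilizerCode C ∧ d ≤ distance C ∧ IsWeightIsometry C C f ∧
      ¬∃ (π : Equiv.Perm (Fin n)) (g : Fin n → GL (Fin 2) (ZMod q)),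
        ∀ c ∈ C, monomial π g c = f c := by
  obtain ⟨n, ⟨e⟩⟩ : ∃ n, Nonempty (Fin n ≃ ι) := ⟨_, ⟨(Fintype.equivFin ι).symm⟩⟩
  obtain ⟨M, hM⟩ : ∃ M : X →ₗ[ZMod q] Word q n, ∀ x, M x = L x ∘ e :=
    ⟨(LinearMap.funLeft _ _ e).comp L, fun _ => rfl⟩
  have sy : ∀ u v : ι → Fin 2 → ZMod q, symp (u ∘ e) (v ∘ e) = ∑ t, om (u t) (v t) :=
    fun u v => e.sum_comp fun t => om (u t) (v t)
  have ce : ∀ u : Word q n, (u ∘ e.symm) ∘ e = u := fun u => funext fun i => by simp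
  have ci : ∀ u v : ι → Fin 2 → ZMod q, u ∘ e = v ∘ e → u = v := fun u v h =>
    e.surjective.injective_comp_right h
  have inj : Function.Injective M := fun x y hxy => h.inj (ci _ _ (by rwa [← hM, ← hM]))
  obtain ⟨r, hr⟩ := M.exists_leftInverse_of_injective (LinearMap.ker_eq_bot.2 inj)
  have hr' : ∀ x, r (M x) = x := fun x => LinearMap.congr_fun hr x
  obtain ⟨u, u1, u2⟩ := ns
  have u3 : u ∘ e ∈ sympDual (LinearMap.range M) := by
    rintro _ ⟨x, rfl⟩
    rw [hM, sy, u1]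
  have u4 : u ∘ e ∉ LinearMap.range M := fun ⟨x, hx⟩ => u2 x (ci _ _ (by rwa [← hM]))
  refine ⟨n, LinearMap.range M, M.comp (T.comp r), ?_, ?_, ⟨⟨?_, ?_, ?_⟩, ?_⟩, ?_⟩
  · rintro _ ⟨x, rfl⟩ _ ⟨y, rfl⟩
    rw [hM, hM, sy, h.iso]
  · unfold distance
    rw [if_neg fun e' => u4 (by rw [← SetLike.mem_coe, e']; exact u3)]
    refine le_csInf ⟨_, _, u3, u4, rfl⟩ ?_
    rintro _ ⟨v, v1, v2, rfl⟩
    by_contra hlt
    obtain ⟨x, hx⟩ := h.low (v ∘ e.symm) (fun x => by rw [← sy, ce, ← hM]; exact v1 _ ⟨x, rfl⟩)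
      (by rw [wt_comp]; omega)
    exact v2 ⟨x, by rw [hM, hx, ce]⟩
  · rintro _ ⟨x, rfl⟩
    exact ⟨_, rfl⟩
  · rintro _ ⟨x, rfl⟩ _ ⟨y, rfl⟩ hxy
    simp only [LinearMap.comp_apply, hr'] at hxy
    rw [← h.inv x, inj hxy, h.inv]
  · rintro _ ⟨x, rfl⟩
    exact ⟨M (T x), ⟨_, rfl⟩, by simp only [LinearMap.comp_apply, hr', h.inv]⟩
  · rintro _ ⟨x, rfl⟩
    simp only [LinearMap.comp_apply, hr']
    rw [hM, hM, wt_comp, wt_comp, h.wt]
  · rintro ⟨π, g, hg⟩
    obtain ⟨j, hj, -⟩ := h.nm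
    obtain ⟨x, hx⟩ := hj (e (π⁻¹ (e.symm j)))
    have h1 := monomial_eq_zero_iff π g (M x) (e.symm j)
    rw [hg _ ⟨x, rfl⟩] at h1
    simp only [LinearMap.comp_apply, hr'] at h1
    simp only [hM, Function.comp_apply, Equiv.apply_symm_apply] at h1
    exact hx h1.symm

/-- The code of Shor on a square grid. -/
def shor (q d : ℕ) : Submodule (ZMod q) (Fin d × Fin d → Fin 2 → ZMod q) where
  carrier := {u | (∀ r c, u (r, c) 0 = u (r, r) 0) ∧ ∑ r, u (r, r) 0 = 0 ∧ ∀ r, ∑ c, u (r, c) 1 = 0}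
  add_mem' := fun ⟨a1, a2, a3⟩ ⟨b1, b2, b3⟩ => ⟨fun r c => by simp only [Pi.add_apply, a1 r c, b1 r c],
    by simp [sum_add_distrib, a2, b2], fun r => by simp [sum_add_distrib, a3, b3]⟩
  zero_mem' := by simp
  smul_mem' := fun k _ ⟨a1, a2, a3⟩ => ⟨fun r c => by simp only [Pi.smul_apply, a1 r c],
    by simp [← mul_sum, a2], fun r => by simp [← mul_sum, a3]⟩

theorem shor_row {u v : Fin d × Fin d → Fin 2 → ZMod q} (hu : ∀ r c, u (r, c) 0 = u (r, r) 0)
    (hv : ∀ r, ∑ c, v (r, c) 1 = 0) : ∑ t, u t 0 * v t 1 = 0 := by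
  rw [Fintype.sum_prod_type]
  refine sum_eq_zero fun r _ => ?_
  simp only [hu r, ← mul_sum, hv, mul_zero]

theorem shor_iso {u v : Fin d × Fin d → Fin 2 → ZMod q} (hu : u ∈ shor q d) (hv : v ∈ shor q d) :
    ∑ t, om (u t) (v t) = 0 := by
  simp only [om, sum_sub_distrib, shor_row hu.1 hv.2.2, shor_row hv.1 hu.2.2, sub_zero]

/-- The indicator of a row. -/
def row (q : ℕ) (r : Fin d) : Fin d × Fin d → Fin 2 → ZMod q :=
  fun t => ![if t.1 = r then 1 else 0, 0]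

theorem om_row (u : Fin d × Fin d → Fin 2 → ZMod q) (r : Fin d) :
    ∑ t, om (row q r t) (u t) = ∑ c, u (r, c) 1 := by
  simp [om, row, Fintype.sum_prod_type, sum_comm (γ := Fin d) (s := univ) (t := univ)]

theorem om_neg (v y : Fin 2 → ZMod q) : om v y = -om y v := by simp [om]

theorem om_sub (v w y : Fin 2 → ZMod q) : om (v - w) y = om v y - om w y := by
  simp only [om, Pi.sub_apply]; ring

theorem shor_low {u : Fin d × Fin d → Fin 2 → ZMod q}
    (hu : ∀ v ∈ shor q d, ∑ t, om (u t) (v t) = 0) (hw : hammingNorm u < d) : u ∈ shor q d := by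
  have hu' : ∀ v w, v - w ∈ shor q d → ∑ t, om (v t) (u t) = ∑ t, om (w t) (u t) := fun v w h => by
    have := hu _ h
    simp only [om_neg (u _), Pi.sub_apply, om_sub, sum_neg_distrib, sum_sub_distrib] at this
    linear_combination -this
  have a1 : ∀ r c, u (r, c) 0 = u (r, r) 0 := fun r c => by
    have := hu' (Pi.single (r, c) ![0, 1]) (Pi.single (r, r) ![0, 1]) ⟨fun r' c' => ?_, ?_, fun r' => ?_⟩
    · rw [om_single, om_single] at this
      simpa [om] using this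
    · simp [Pi.single_apply, apply_ite fun z : Fin 2 → ZMod q => z 0]
    · simp [Pi.single_apply, apply_ite fun z : Fin 2 → ZMod q => z 0]
    · by_cases e : r' = r <;>
        simp [Pi.single_apply, apply_ite fun z : Fin 2 → ZMod q => z 1, sum_sub_distrib, e]
  have a2 : ∀ r r', ∑ c, u (r, c) 1 = ∑ c, u (r', c) 1 := fun r r' => by
    rw [← om_row, ← om_row]
    exact hu' _ _ ⟨fun _ _ => by simp [row], by simp [row, sum_sub_distrib], fun _ => by simp [row]⟩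
  have big : ∀ g : Fin d → Fin d × Fin d, Function.Injective g → ¬∀ r, u (g r) ≠ 0 := fun g hg h => by
    have := card_le_card_of_injOn (s := univ) (t := {t | u t ≠ 0}) g
      (fun r _ => by simpa using h r) hg.injOn
    rw [card_univ, Fintype.card_fin] at this
    exact this.not_gt hw
  have a3 : ∀ r, u (r, r) 0 = 0 := fun r => by
    by_contra h
    exact big (fun c => (r, c)) (fun _ _ e => (Prod.ext_iff.1 e).2) fun c e =>
      h (by rw [← a1 r c, e]; rfl)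
  obtain ⟨r0, a4⟩ : ∃ r0, ∀ c, u (r0, c) = 0 := by
    by_contra h
    push Not at h
    choose g hg using h
    exact big (fun r => (r, g r)) (fun _ _ e => (Prod.ext_iff.1 e).1) hg
  exact ⟨a1, by simp [a3], fun r => by simp [a2 r r0, a4]⟩

omit [DecidableEq ι] in
theorem wt_sum {κ : Type} [Fintype κ] (u : ι ⊕ κ → Fin 2 → ZMod q) :
    hammingNorm u = hammingNorm (u ∘ Sum.inl) + hammingNorm (u ∘ Sum.inr) := by
  simp only [hammingNorm, card_filter, Fintype.sum_sum_type, Function.comp_apply]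

omit [DecidableEq ι] in
theorem Seed.counter' [Fact q.Prime] {L : X →ₗ[ZMod q] ι → Fin 2 → ZMod q} {T : X →ₗ[ZMod q] X}
    (h : Seed (d + 1) L T) :
    ∃ (n : ℕ) (C : Submodule (ZMod q) (Word q n)) (f : Word q n →ₗ[ZMod q] Word q n),
      IsStabilizerCode C ∧ d + 1 ≤ distance C ∧ IsWeightIsometry C C f ∧
      ¬∃ (π : Equiv.Perm (Fin n)) (g : Fin n → GL (Fin 2) (ZMod q)),
        ∀ c ∈ C, monomial π g c = f c := by
  obtain ⟨M, hM⟩ : ∃ M : X × shor q (d + 1) →ₗ[ZMod q]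
      ι ⊕ Fin (d + 1) × Fin (d + 1) → Fin 2 → ZMod q, ∀ x, M x = Sum.elim (L x.1) x.2.1 :=
    ⟨⟨⟨fun x => Sum.elim (L x.1) x.2.1, fun x y => by funext t; cases t <;> simp⟩,
      fun c x => by funext t; cases t <;> simp⟩, fun _ => rfl⟩
  have z : ∀ y : Fin 2 → ZMod q, om y 0 = 0 := fun y => by simp [om]
  have z' : ∀ y : Fin 2 → ZMod q, om 0 y = 0 := fun y => by simp [om]
  refine Seed.counter (L := M) (T := T.prodMap LinearMap.id) ⟨fun x y e => ?_, fun x => ?_,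
    fun x y => ?_, fun x => ?_, fun u h1 h2 => ?_, ?_⟩ ⟨Sum.elim 0 (row q 0), fun x => ?_, fun x e => ?_⟩
  · rw [hM, hM] at e
    exact Prod.ext (h.inj (funext fun i => congrFun e (Sum.inl i)))
      (Subtype.ext (funext fun i => congrFun e (Sum.inr i)))
  · simp [h.inv]
  · simp only [hM, Fintype.sum_sum_type, Sum.elim_inl, Sum.elim_inr, h.iso, shor_iso x.2.2 y.2.2,
      add_zero]
  · simp only [hM, wt_sum, Sum.elim_comp_inl, Sum.elim_comp_inr, LinearMap.prodMap_apply, h.wt,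
      LinearMap.id_apply]
  · rw [wt_sum] at h2
    obtain ⟨x, hx⟩ := h.low (u ∘ Sum.inl) (fun x => by
      simpa [hM, Fintype.sum_sum_type, z] using h1 (x, 0)) (by omega)
    have h3 := shor_low (u := u ∘ Sum.inr) (fun v hv => by
      simpa [hM, Fintype.sum_sum_type, z] using h1 (0, ⟨v, hv⟩)) (by omega)
    exact ⟨(x, ⟨_, h3⟩), by rw [hM, hx]; exact Sum.elim_comp_inl_inr u⟩
  · obtain ⟨j, h1, y, h2⟩ := h.nm
    refine ⟨Sum.inl j, fun i => ?_, (y, 0), by simpa [hM] using h2⟩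
    cases i with
    | inl i => obtain ⟨x, hx⟩ := h1 i; exact ⟨(x, 0), by simpa [hM] using hx⟩
    | inr i => exact ⟨(y, 0), by simpa [hM] using h2⟩
  · simp only [hM, Fintype.sum_sum_type, Sum.elim_inl, Sum.elim_inr, Pi.zero_apply, z', om_row,
      x.2.2.2.2, sum_const_zero, add_zero]
  · have h1 : x.2.1 = row q 0 := funext fun i => by simpa [hM] using congrFun e (Sum.inr i)
    have h2 := x.2.2.2.1
    simp [h1, row] at h2

end Pool.Agent.Lib.MP_711a76_lc
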