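import Pool.Agent.Lib.MP_711a76_lc.XNeg

set_option autoImplicit false

namespace Pool.Agent.Lib.MP_711a76_lc

open Finset

/-- A self-dual qubit code of length five built from the cycle space of the cube. -/
def L2 : (Fin 5 → ZMod 2) →ₗ[ZMod 2] Word 2 5 where
  toFun x := ![![x 0, x 1], ![x 2, x 3], ![x 4, x 0 + x 1 + x 2 + x 3 + x 4],
    ![x 2 + x 4, x 1 + x 2 + x 3 + x 4], ![x 0 + x 2, x 1 + x 4]]
  map_add' x y := by ext i j; fin_cases i <;> fin_cases j <;> simp <;> ring
  map_smul' c x := by ext i j; fin_cases i <;> fin_cases j <;> simp <;> ring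

/-- The exchange of the two colour classes of the cube. -/
def T2 : (Fin 5 → ZMod 2) →ₗ[ZMod 2] Fin 5 → ZMod 2 where
  toFun x := ![x 2, x 4, x 0, x 0 + x 1 + x 2 + x 3 + x 4, x 1]
  map_add' x y := by ext i; fin_cases i <;> simp; ring
  map_smul' c x := by ext i; fin_cases i <;> simp; ring

theorem low2 : ∀ a b c d e f g h i j : ZMod 2,
    (∀ k : Fin 5, ∑ t, om ((![![a, b], ![c, d], ![e, f], ![g, h], ![i, j]] : Word 2 5) t)
      (L2 (Pi.single k 1) t) = 0) →
    L2 ![a, b, c, d, e] = ![![a, b], ![c, d], ![e, f], ![g, h], ![i, j]] := by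
  decide +kernel

theorem seed2 (d : ℕ) : Seed d L2 T2 where
  inj := (injective_iff_map_eq_zero _).2 (by decide +kernel)
  inv := by decide +kernel
  iso := by decide +kernel
  wt := by decide +kernel
  low u h _ := by
    have e : u = ![![u 0 0, u 0 1], ![u 1 0, u 1 1], ![u 2 0, u 2 1], ![u 3 0, u 3 1],
        ![u 4 0, u 4 1]] := by ext i j; fin_cases i <;> fin_cases j <;> rfl
    exact ⟨_, (low2 _ _ _ _ _ _ _ _ _ _ fun k => by rw [← e]; exact h _).trans e.symm⟩
  nm := by decide +kernel

/-- The transposition of a two by two matrix. -/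
def T4 (q : ℕ) : (Fin 4 → ZMod q) →ₗ[ZMod q] Fin 4 → ZMod q where
  toFun x := ![x 0, x 2, x 1, x 3]
  map_add' x y := by ext i; fin_cases i <;> simp
  map_smul' c x := by ext i; fin_cases i <;> simp

/-- A self-dual qutrit code of length four built from a regulus. -/
def L3 : (Fin 4 → ZMod 3) →ₗ[ZMod 3] Word 3 4 where
  toFun x := ![![x 0, x 1], ![x 2, x 3], ![x 0 + x 2, x 1 + x 3], ![x 0 - x 2, x 1 - x 3]]
  map_add' x y := by ext i j; fin_cases i <;> fin_cases j <;> simp <;> ring
  map_smul' c x := by ext i j; fin_cases i <;> fin_cases j <;> simp <;> ring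

theorem low3 : ∀ a b c d e f g h : ZMod 3,
    (∀ k : Fin 4, ∑ t, om ((![![a, b], ![c, d], ![e, f], ![g, h]] : Word 3 4) t)
      (L3 (Pi.single k 1) t) = 0) →
    L3 ![a, b, c, d] = ![![a, b], ![c, d], ![e, f], ![g, h]] := by
  decide +kernel

theorem seed3 (d : ℕ) : Seed d L3 (T4 3) where
  inj := (injective_iff_map_eq_zero _).2 (by decide +kernel)
  inv := by decide +kernel
  iso x y := by
    have h3 : (3 : ZMod 3) = 0 := rfl
    simp [L3, om, Fin.sum_univ_succ]
    linear_combination (x 0 * y 1 - y 0 * x 1 + x 2 * y 3 - y 2 * x 3) * h3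
  wt := by decide +kernel
  low u h _ := by
    have e : u = ![![u 0 0, u 0 1], ![u 1 0, u 1 1], ![u 2 0, u 2 1], ![u 3 0, u 3 1]] := by
      ext i j; fin_cases i <;> fin_cases j <;> rfl
    exact ⟨_, (low3 _ _ _ _ _ _ _ _ fun k => by rw [← e]; exact h _).trans e.symm⟩
  nm := by decide +kernel

variable {q : ℕ} [Fact q.Prime]

/-- First coordinate of a point of the projective line. -/
def P1 (i : Option (ZMod q)) : ZMod q := i.elim 0 fun _ => 1

/-- Second coordinate of a point of the projective line. -/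
def P2 (i : Option (ZMod q)) : ZMod q := i.elim 1 id

/-- The code of a regulus with column multipliers. -/
def LR (c : Option (ZMod q) → ZMod q) :
    (Fin 4 → ZMod q) →ₗ[ZMod q] Option (ZMod q) → Fin 2 → ZMod q where
  toFun x i := ![c i * (P1 i * x 0 + P2 i * x 2), P1 i * x 1 + P2 i * x 3]
  map_add' x y := by ext i j; fin_cases j <;> simp <;> ring
  map_smul' k x := by ext i j; fin_cases j <;> simp <;> ring

theorem P_det {i k : Option (ZMod q)} (h : i ≠ k) : P1 i * P2 k - P2 i * P1 k ≠ 0 := by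
  cases i <;> cases k <;> simp_all [P1, P2, sub_eq_zero, eq_comm]

theorem P_ne (i : Option (ZMod q)) : P1 i = 0 → P2 i ≠ 0 := by cases i <;> simp [P1, P2]

theorem LR_zero {c : Option (ZMod q) → ZMod q} (hc : ∀ i, c i ≠ 0) (x : Fin 4 → ZMod q)
    (i : Option (ZMod q)) :
    LR c x i = 0 ↔ P1 i * x 0 + P2 i * x 2 = 0 ∧ P1 i * x 1 + P2 i * x 3 = 0 := by
  simp [LR, funext_iff, Fin.forall_fin_two, hc i]

theorem LR_two {c : Option (ZMod q) → ZMod q} (hc : ∀ i, c i ≠ 0) {x : Fin 4 → ZMod q}
    {i k : Option (ZMod q)} (h : i ≠ k) (hi : LR c x i = 0) (hk : LR c x k = 0) : x = 0 := by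
  rw [LR_zero hc] at hi hk
  have z : ∀ y, (P1 i * P2 k - P2 i * P1 k) * y = 0 → y = 0 := fun y e =>
    (mul_eq_zero.1 e).resolve_left (P_det h)
  funext e
  fin_cases e
  · exact z _ (by simp only [Fin.zero_eta]; linear_combination P2 k * hi.1 - P2 i * hk.1)
  · exact z _ (by simp only [Fin.mk_one]; linear_combination P2 k * hi.2 - P2 i * hk.2)
  · exact z _ (by simp only [Fin.reduceFinMk]; linear_combination P1 i * hk.1 - P1 k * hi.1)
  · exact z _ (by simp only [Fin.reduceFinMk]; linear_combination P1 i * hk.2 - P1 k * hi.2)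

theorem LR_ex {c : Option (ZMod q) → ZMod q} (hc : ∀ i, c i ≠ 0) (x : Fin 4 → ZMod q) :
    (∃ i, LR c x i = 0) ↔ x 0 * x 3 = x 1 * x 2 := by
  simp only [LR_zero hc]
  refine ⟨fun ⟨i, h1, h2⟩ => ?_, fun h => ?_⟩
  · by_contra hn
    have z : ∀ y, y * (x 0 * x 3 - x 1 * x 2) = 0 → y = 0 := fun y e =>
      (mul_eq_zero.1 e).resolve_right (sub_ne_zero.2 hn)
    exact P_ne i (z _ (by linear_combination x 3 * h1 - x 2 * h2))
      (z _ (by linear_combination x 0 * h2 - x 1 * h1))
  · by_cases h2 : x 2 = 0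
    · by_cases h3 : x 3 = 0
      · exact ⟨none, by simp [P1, P2, h2, h3]⟩
      · refine ⟨some (-x 1 / x 3), ?_, ?_⟩ <;> simp only [P1, P2, Option.elim, id] <;> field_simp
        · linear_combination h
        · ring
    · refine ⟨some (-x 0 / x 2), ?_, ?_⟩ <;> simp only [P1, P2, Option.elim, id] <;> field_simp
      · ring
      · linear_combination -h

theorem seedR {c : Option (ZMod q) → ZMod q} (hc : ∀ i, c i ≠ 0) (h1 : ∑ i, c i * P1 i ^ 2 = 0)
    (h2 : ∑ i, c i * (P1 i * P2 i) = 0) (h3 : ∑ i, c i * P2 i ^ 2 = 0) :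
    Seed 3 (LR c) (T4 q) where
  inj := (injective_iff_map_eq_zero _).2 fun x hx =>
    LR_two hc (i := none) (k := some 0) (by simp) (congrFun hx _) (congrFun hx _)
  inv x := by ext i; fin_cases i <;> rfl
  iso x y := by
    have e : ∀ t, om (LR c x t) (LR c y t) = (x 0 * y 1 - y 0 * x 1) * (c t * P1 t ^ 2)
        + (x 0 * y 3 + x 2 * y 1 - y 0 * x 3 - y 2 * x 1) * (c t * (P1 t * P2 t))
        + (x 2 * y 3 - y 2 * x 3) * (c t * P2 t ^ 2) := fun t => by simp [LR, om]; ring
    simp only [e, sum_add_distrib, ← mul_sum, h1, h2, h3, mul_zero, add_zero]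
  wt x := by
    by_cases h0 : x = 0
    · simp [h0]
    have h0' : T4 q x ≠ 0 := fun e => h0 (by
      have : x = T4 q (T4 q x) := by ext i; fin_cases i <;> rfl
      rw [this, e, map_zero])
    have a : ∀ y : Fin 4 → ZMod q, y ≠ 0 →
        #{i | LR c y i = 0} = if y 0 * y 3 = y 1 * y 2 then 1 else 0 := fun y hy => by
      split_ifs with e
      · obtain ⟨i, hi⟩ := (LR_ex hc y).2 e
        refine card_eq_one.2 ⟨i, eq_singleton_iff_unique_mem.2 ⟨by simpa using hi, fun k hk => ?_⟩⟩
        by_contra hn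
        exact hy (LR_two hc hn (by simpa using hk) hi)
      · exact card_eq_zero.2 (filter_false_of_mem fun i _ hi => e ((LR_ex hc y).1 ⟨i, hi⟩))
    have a1 := card_filter_add_card_filter_not (s := univ) fun i => LR c x i = 0
    have a2 := card_filter_add_card_filter_not (s := univ) fun i => LR c (T4 q x) i = 0
    rw [a x h0] at a1
    rw [a _ h0', show T4 q x 1 * T4 q x 2 = x 1 * x 2 from mul_comm _ _,
      show T4 q x 0 * T4 q x 3 = x 0 * x 3 from rfl] at a2
    simp only [hammingNorm, ne_eq]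
    omega
  low u h hw := by
    refine ⟨0, ?_⟩
    rw [map_zero, eq_comm]
    funext i
    by_contra hi
    obtain ⟨k, hk, hz⟩ : ∃ k, i ≠ k ∧ ∀ t, t ≠ i → t ≠ k → u t = 0 := by
      by_cases e : ∃ k, i ≠ k ∧ u k ≠ 0
      · obtain ⟨k, e1, e2⟩ := e
        refine ⟨k, e1, fun t t1 t2 => by_contra fun t3 => ?_⟩
        have := card_le_card (s := {i, k, t}) (t := {s | u s ≠ 0}) (by
          simp [insert_subset_iff, e2, t3, show u i ≠ 0 from hi])
        rw [card_eq_three.2 ⟨i, k, t, e1, t1.symm, t2.symm, rfl⟩] at this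
        exact this.not_gt hw
      · obtain ⟨k, hk⟩ := exists_ne i
        exact ⟨k, hk.symm, fun t t1 _ => by_contra fun t3 => e ⟨t, t1.symm, t3⟩⟩
    have a : ∀ a b : ZMod q, u i 0 * b - c i * a * u i 1 = 0 := fun a b => by
      have b1 := h ![P2 k * a, P2 k * b, -P1 k * a, -P1 k * b]
      rw [sum_eq_single i (fun t _ ht => ?_) (by simp)] at b1
      · refine (mul_eq_zero.1 ?_).resolve_left (P_det hk)
        simp [LR, om] at b1
        linear_combination b1
      · by_cases e : t = k
        · simp [e, LR, om]; ring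
        · simp [hz t ht e, om]
    refine hi (funext fun e => ?_)
    fin_cases e
    · simpa using a 0 1
    · simpa [hc i] using a 1 0
  nm := by
    refine ⟨none, fun i => ?_, ![0, 0, 0, 1], by simp [LR_zero hc, T4, P1, P2]⟩
    by_contra hn
    push Not at hn
    have a1 := (hn ![1, 0, 0, 0]).2 (by simp [LR_zero hc, T4, P1, P2])
    have a2 := (hn ![0, 0, 1, 0]).2 (by simp [LR_zero hc, T4, P1, P2])
    rw [LR_zero hc] at a1 a2
    exact P_ne i (by simpa using a1.1) (by simpa using a2.1)

theorem seed5 (hq : 5 ≤ q) : ∃ c : Option (ZMod q) → ZMod q, Seed 3 (LR c) (T4 q) := by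
  have h2 : (2 : ZMod q) ≠ 0 := fun e => by
    have := Nat.le_of_dvd two_pos ((ZMod.natCast_eq_zero_iff 2 q).1 (by exact_mod_cast e))
    omega
  have h1 : (1 : ZMod q) ≠ -1 := fun e => h2 (by linear_combination e)
  have s : ∀ j, j ≤ 2 → ∑ t : ZMod q, t ^ j = 0 := fun j hj =>
    FiniteField.sum_pow_lt_card_sub_one _ j (by rw [ZMod.card]; omega)
  refine ⟨fun i => i.elim (-2) fun t => 1 + (if t = 0 then -2 else 0) + (if t = 1 then 1 else 0)
    + if t = -1 then 1 else 0, seedR (fun i => ?_) ?_ ?_ ?_⟩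
  · cases i with
    | none => simpa using h2
    | some t =>
      simp only [Option.elim]
      by_cases e0 : t = 0
      · simp [e0]; norm_num
      by_cases e1 : t = 1
      · simpa [e1, h1, one_add_one_eq_two] using h2
      by_cases e2 : t = -1
      · simpa [e2, h1.symm, one_add_one_eq_two] using h2
      · simp [e0, e1, e2]
  · have := s 0 (by norm_num)
    simp only [pow_zero] at this
    simp [Fintype.sum_option, P1, sum_add_distrib, this]
    norm_num
  · have := s 1 (by norm_num)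
    simp only [pow_one] at this
    simp [Fintype.sum_option, P1, P2, add_mul, sum_add_distrib, this]
  · have := s 2 le_rfl
    simp [Fintype.sum_option, P2, add_mul, sum_add_distrib, this]
    norm_num

end Pool.Agent.Lib.MP_711a76_lc
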